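import Pool.Agent.H857.EF.Core

set_option autoImplicit false
set_option linter.unusedVariables false

namespace Pool.Agent.H122.EF

open Module Polynomial Pool.Agent.W521.Descent Pool.Agent.W521.Density Pool.Agent.W521.Count
  Pool.Agent.X297.UB Pool.Agent.H857.PB Pool.Agent.H857.PA Pool.Agent.H857.HK
  Pool.Agent.H857.EF

lemma prod_single (A : Fin 4 → ℂ) (i : Fin 4) (c : ℤ) :
    ∏ k, A k ^ (2 * (Pi.single i c : Fin 4 → ℤ) k) = A i ^ (2 * c) := by
  rw [Finset.prod_eq_single i]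
  · rw [Pi.single_eq_same]
  · intro k _ hk
    rw [Pi.single_eq_of_ne hk, mul_zero, zpow_zero]
  · intro h
    exact absurd (Finset.mem_univ i) h

lemma sum_single (i : Fin 4) (c : ℤ) : ∑ k, (Pi.single i c : Fin 4 → ℤ) k = c := by
  rw [Finset.sum_eq_single i]
  · rw [Pi.single_eq_same]
  · intro k _ hk
    rw [Pi.single_eq_of_ne hk]
  · intro h
    exact absurd (Finset.mem_univ i) h

lemma sum_single_mul (i : Fin 4) (c : ℤ) (l : Fin 4 → ℝ) :
    ∑ k, (((Pi.single i c : Fin 4 → ℤ) k : ℤ) : ℝ) * l k = (c : ℝ) * l i := by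
  rw [Finset.sum_eq_single i]
  · rw [Pi.single_eq_same]
  · intro k _ hk
    rw [Pi.single_eq_of_ne hk, Int.cast_zero, zero_mul]
  · intro h
    exact absurd (Finset.mem_univ i) h

lemma sum_two (i j : Fin 4) (c d : ℤ) (l : Fin 4 → ℝ) :
    ∑ k, (((Pi.single i c + Pi.single j d : Fin 4 → ℤ) k : ℤ) : ℝ) * l k =
      (c : ℝ) * l i + (d : ℝ) * l j := by
  rw [← sum_single_mul i c l, ← sum_single_mul j d l, ← Finset.sum_add_distrib]
  refine Finset.sum_congr rfl fun k _ => ?_
  rw [Pi.add_apply, Int.cast_add, add_mul]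

/-- The algebra of one root. -/
lemma beta_sq (q : ℕ) (hq : (q : ℂ) ≠ 0) (A B : ℂ) (hA : A ≠ 0) (hAB : A * B = q) (e : ℤ)
    (he : e ≠ 0) :
    (if 0 < e then A else B) ^ 2 = A ^ (2 * e.sign) * (q : ℂ) ^ (1 - e.sign) := by
  by_cases h : 0 < e
  · rw [if_pos h, Int.sign_eq_one_of_pos h]
    norm_num
  · have h2 : e < 0 := lt_of_le_of_ne (not_lt.1 h) he
    rw [if_neg h, Int.sign_eq_neg_one_of_neg h2]
    have h3 : B = q / A := by
      rw [eq_div_iff hA, mul_comm]
      exact hAB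
    rw [h3]
    have h4 : A ^ (2 * (-1) : ℤ) = (A ^ 2)⁻¹ := by
      rw [show (2 * (-1) : ℤ) = -((2 : ℕ) : ℤ) by norm_num, zpow_neg, zpow_natCast]
    have h5 : (q : ℂ) ^ (1 - (-1) : ℤ) = (q : ℂ) ^ 2 := by
      rw [show (1 - (-1) : ℤ) = ((2 : ℕ) : ℤ) by norm_num, zpow_natCast]
    rw [h4, h5, div_pow]
    field_simp

theorem s4 (h1 : S1) (h2a : S2a) (h2b : S2b) (h3 : S3) : S4 := by
  intro p hp a ha x hx hirr hEx
  obtain ⟨L, hL, hroot, hprod, hpair⟩ := hEx
  have hq1 : 1 < p ^ a := Nat.one_lt_pow ha.ne' hp.out.one_lt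
  have hq0 : p ^ a ≠ 0 := by omega
  have hqC : ((p ^ a : ℕ) : ℂ) ≠ 0 := Nat.cast_ne_zero.2 hq0
  obtain ⟨q, hq⟩ : ∃ q : ℕ, q = p ^ a := ⟨_, rfl⟩
  obtain ⟨hne, hint, hcnt, hrel⟩ := h2a p a ha x hx
  obtain ⟨hinj, habs⟩ := h2b p a ha x hx hirr
  rw [← hq] at hq1 hq0 hqC hx hroot hprod hpair hne hint hcnt hrel hinj habs ⊢
  have hx' : wp q 4 x ∈ weilPolys q 4 := by
    have h := hx.1
    rw [← hq] at h
    exact h
  have hmul := lab_mul q 4 x
  have hA0 : ∀ i, labA q 4 x i ≠ 0 := fun i h => hqC (by rw [← hmul i, h, zero_mul])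
  have hnorm : ∀ i, ‖labA q 4 x i‖ ^ 2 = q := fun i =>
    hx'.2.2.2 _ ((lab_root hq0 x _).2 ⟨i, Or.inl rfl⟩)
  have hB : ∀ i, labB q 4 x i = q / labA q 4 x i := fun i => by
    rw [eq_div_iff (hA0 i), mul_comm]
    exact hmul i
  obtain ⟨e, he0, hrelE, heven, hpr, hsg⟩ := h3 (Fin 4) q hq1 (labA q 4 x) hnorm L hL
    (fun z hz => by
      obtain ⟨i, hi⟩ := (lab_root hq0 x z).1 (hroot z hz)
      rw [hB i] at hi
      exact ⟨i, hi⟩) hprod hpair
  have hk := h1 (slopes p a (labA q 4 x)) hne hint hcnt habs e he0 ((hrel e).1 hrelE) heven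
    (fun i j hij hi hj => by
      by_contra hcon
      push Not at hcon
      refine hpr i j hij hi hj ((hrel _).2 fun l hl => ?_)
      rw [sum_two]
      exact hcon l hl)
    (fun i hi => by
      by_contra hcon
      push Not at hcon
      refine hsg i hi ((hrel _).2 fun l hl => ?_)
      rw [sum_single_mul, hcon l hl, mul_zero])
  obtain ⟨hall, hsame, hnz⟩ := hk
  have hsq : ∀ i, (if 0 < e i then labA q 4 x i else labB q 4 x i) ^ 2 =
      labA q 4 x i ^ (2 * (e i).sign) * (q : ℂ) ^ (1 - (e i).sign) := fun i =>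
    beta_sq q hqC _ _ (hA0 i) (hmul i) (e i) (hall i)
  refine ⟨fun i => if 0 < e i then labA q 4 x i else labB q 4 x i, ?_, ?_, ?_, ?_⟩
  · intro i
    split_ifs
    · exact Or.inl rfl
    · exact Or.inr rfl
  · have hadd : ∀ i, (if 0 < e i then labA q 4 x i else labB q 4 x i) +
        q / (if 0 < e i then labA q 4 x i else labB q 4 x i) = labA q 4 x i + labB q 4 x i := by
      intro i
      split_ifs
      · rw [hB i]
      · rw [hB i, div_div_cancel₀ hqC, add_comm]
    intro i j hij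
    beta_reduce at hij
    apply hinj
    show labA q 4 x i + labB q 4 x i = labA q 4 x j + labB q 4 x j
    rw [← hadd i, ← hadd j, hij]
  · have hs : RelZ q (labA q 4 x) (fun i => (e i).sign) := by
      refine (hrel _).2 fun l hl => ?_
      have h5 := (hrel e).1 hrelE l hl
      have hm : (0 : ℝ) < |(e 0 : ℝ)| := abs_pos.2 (by exact_mod_cast hall 0)
      have h6 : |(e 0 : ℝ)| * ∑ i, (((e i).sign : ℤ) : ℝ) * l i = 0 := by
        rw [← h5, Finset.mul_sum]
        refine Finset.sum_congr rfl fun i _ => ?_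
        have h7 : (|e 0| : ℤ) = |e i| := hsame 0 i
        have h8 : (|e 0| : ℤ) * (e i).sign = e i := by
          rw [h7, mul_comm]
          exact Int.sign_mul_abs (e i)
        have h9 : |(e 0 : ℝ)| * (((e i).sign : ℤ) : ℝ) = (e i : ℝ) := by
          rw [← Int.cast_abs, ← Int.cast_mul, h8]
        rw [← mul_assoc, h9]
      exact (mul_eq_zero.1 h6).resolve_left hm.ne'
    obtain ⟨N, hN, hNe⟩ := hs
    refine ⟨2 * N, by omega, ?_⟩
    rw [pow_mul, ← Finset.prod_pow]
    have h5 : ∏ i, (if 0 < e i then labA q 4 x i else labB q 4 x i) ^ 2 =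
        (∏ i, labA q 4 x i ^ (2 * (e i).sign)) * (q : ℂ) ^ (4 - ∑ i, (e i).sign) := by
      rw [Finset.prod_congr rfl fun i _ => hsq i, Finset.prod_mul_distrib]
      congr 1
      rw [Fin.prod_univ_four, Fin.sum_univ_four, ← zpow_add₀ hqC, ← zpow_add₀ hqC,
        ← zpow_add₀ hqC]
      congr 1
      ring
    rw [h5, mul_pow, hNe, ← mul_pow, ← zpow_add₀ hqC]
    have h6 : ∑ i, (e i).sign + (4 - ∑ i, (e i).sign) = ((4 : ℕ) : ℤ) := by
      push_cast
      ring
    rw [h6, zpow_natCast]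
    rw [← pow_mul, ← pow_mul]
    congr 1
    ring
  · intro i j
    rintro ⟨N, hN, hNe⟩
    have h5 : ((labA q 4 x i ^ (2 * (e i).sign) * (q : ℂ) ^ (1 - (e i).sign)) *
        (labA q 4 x j ^ (2 * (e j).sign) * (q : ℂ) ^ (1 - (e j).sign))) ^ N =
        ((q : ℂ) ^ 2) ^ N := by
      rw [← hsq i, ← hsq j, ← mul_pow, ← pow_mul, mul_comm 2 N, pow_mul, hNe, ← pow_mul, ← pow_mul,
        mul_comm 2 N]
    have h6 : (labA q 4 x i ^ (2 * (e i).sign) * labA q 4 x j ^ (2 * (e j).sign)) ^ N =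
        ((q : ℂ) ^ ((e i).sign + (e j).sign)) ^ N := by
      have h7 : (labA q 4 x i ^ (2 * (e i).sign) * labA q 4 x j ^ (2 * (e j).sign)) ^ N *
          ((q : ℂ) ^ (2 - ((e i).sign + (e j).sign))) ^ N =
          ((q : ℂ) ^ ((e i).sign + (e j).sign)) ^ N *
          ((q : ℂ) ^ (2 - ((e i).sign + (e j).sign))) ^ N := by
        rw [← mul_pow, ← mul_pow, ← zpow_add₀ hqC]
        have h8 : (e i).sign + (e j).sign + (2 - ((e i).sign + (e j).sign)) = ((2 : ℕ) : ℤ) := by
          push_cast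
          ring
        rw [h8, zpow_natCast, ← h5]
        congr 1
        have h9 : (q : ℂ) ^ (2 - ((e i).sign + (e j).sign)) =
            (q : ℂ) ^ (1 - (e i).sign) * (q : ℂ) ^ (1 - (e j).sign) := by
          rw [← zpow_add₀ hqC]
          congr 1
          ring
        rw [h9]
        ring
      exact mul_right_cancel₀ (pow_ne_zero _ (zpow_ne_zero _ hqC)) h7
    have h7 : RelZ q (labA q 4 x) (Pi.single i (e i).sign + Pi.single j (e j).sign) := by
      refine ⟨N, hN, ?_⟩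
      have h8 : ∏ k, labA q 4 x k ^
          (2 * (Pi.single i (e i).sign + Pi.single j (e j).sign : Fin 4 → ℤ) k) =
          labA q 4 x i ^ (2 * (e i).sign) * labA q 4 x j ^ (2 * (e j).sign) := by
        rw [← prod_single (labA q 4 x) i, ← prod_single (labA q 4 x) j,
          ← Finset.prod_mul_distrib]
        refine Finset.prod_congr rfl fun k _ => ?_
        rw [Pi.add_apply, mul_add, zpow_add₀ (hA0 k)]
      have h9 : ∑ k, (Pi.single i (e i).sign + Pi.single j (e j).sign : Fin 4 → ℤ) k =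
          (e i).sign + (e j).sign := by
        rw [← sum_single i (e i).sign, ← sum_single j (e j).sign, ← Finset.sum_add_distrib,
          sum_single, sum_single]
        rfl
      rw [h8, h9, h6]
    by_cases hij : i = j
    · subst hij
      obtain ⟨l, hl, hli⟩ := hnz i
      have h8 := (hrel _).1 h7 l hl
      rw [sum_two] at h8
      have h9 : (((e i).sign : ℤ) : ℝ) ≠ 0 := by
        exact_mod_cast (Int.sign_eq_zero_iff_zero.not).2 (hall i)
      have h10 : (((e i).sign : ℤ) : ℝ) * l i = 0 := by linarith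
      rcases mul_eq_zero.1 h10 with h | h
      · exact h9 h
      · exact hli h
    · exact hpr i j hij (hall i) (hall j) h7

end Pool.Agent.H122.EF
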